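import Pool.Agent.H18.VP.Targets2
import Pool.Agent.H12.HIT.HIT

/-!
# Board `vz_modules`: row HPQ, Hilbert's irreducibility theorem over a number field
-/

open MvPolynomial
open Pool.Agent.H18.HIT Pool.Agent.H18.HX Pool.Agent.H18.VP

namespace Pool.Agent.H78.VP

theorem pf_HPQ (hBER : Pool.Agent.H18.HIT.T_BER) (hHIK : Pool.Agent.H18.HIT.T_HIK) : T_HPQ := by
  intro N Φ c K hKfin hΦm hΦi hc hKΦ
  obtain ⟨y, b, hirr, hcb⟩ := hBER N Φ c hΦm hΦi hc
  obtain ⟨M, hM⟩ := Pool.Agent.H12.HIT.exists_bound (lin y b c) hcb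
  obtain ⟨t, htM, hσ⟩ := hHIK K hKfin (Φ.map (lin y b)) (hΦm.map _) hirr
    (fun i j => by
      rw [Polynomial.coeff_map]
      exact Pool.Agent.H12.HIT.lin_coeff_mem K y b _ (hKΦ i) j) M
  have ht := hM t htM
  rw [Pool.Agent.H12.HIT.lin_eval] at ht
  have hmap : (Φ.map (lin y b)).map (Polynomial.evalRingHom (t : AlgebraicClosure ℚ)) =
      Φ.map (eval (fun i => ((y i + t * b i : ℤ) : AlgebraicClosure ℚ))) := by
    rw [Polynomial.map_map]
    congr 1
    exact RingHom.ext fun q => Pool.Agent.H12.HIT.lin_eval y b t q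
  rw [hmap] at hσ
  exact ⟨fun i => y i + t * b i, ht, hσ⟩

end Pool.Agent.H78.VP
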